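import Pool.Agent.Helper419_RPC.Low

/-!
# Removable pairs in posets of dimension at most four

Every finite poset of dimension at most four with at least three points has a removable pair.
-/

set_option autoImplicit false

namespace Pool.Agent.Results.MP_cfa48c_co.DimensionFour

open Pool.Agent.Helper419_RPC

/-- Every finite poset `α` with at least three points whose order is the intersection of four
linear extensions has two distinct points `x, y` such that every realizer of `α` minus `{x, y}` by
`t ≥ 1` linear extensions gives a realizer of `α` by `t + 1` linear extensions. -/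
theorem result :
    ∀ (α : Type) [Fintype α] [PartialOrder α], 3 ≤ Fintype.card α →
      (∃ f : Fin 4 → α → ℕ,
        (∀ i, Function.Injective (f i)) ∧
        ∀ a b : α, (a ≤ b ↔ ∀ i, f i a ≤ f i b)) →
      ∃ x y : α, x ≠ y ∧
        ∀ t : ℕ, 1 ≤ t →
          (∃ f : Fin t → α → ℕ,
              (∀ i, Set.InjOn (f i) ({x, y}ᶜ : Set α)) ∧
              ∀ a ∈ ({x, y}ᶜ : Set α), ∀ b ∈ ({x, y}ᶜ : Set α),
                (a ≤ b ↔ ∀ i, f i a ≤ f i b)) →
          ∃ g : Fin (t + 1) → α → ℕ,
            (∀ i, Function.Injective (g i)) ∧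
            ∀ a b : α, (a ≤ b ↔ ∀ i, g i a ≤ g i b) := by
  intro α _ _ hcard h4
  have hxy : ∃ x y : α, x ≠ y := by
    have : 1 < Fintype.card α := by omega
    exact Fintype.exists_pair_of_one_lt_card this
  have hR4 : Rz (Set.univ : Set α) 4 := by
    obtain ⟨f, hf, hord⟩ := h4
    exact ⟨f, fun i => (hf i).injOn, fun a _ b _ => hord a b⟩
  have hno := not_noRem_of_dim_four hxy hR4
  unfold NoRem at hno
  push Not at hno
  obtain ⟨x, y, hne, H⟩ := hno
  refine ⟨x, y, hne, ?_⟩
  intro t ht hR
  obtain ⟨g, hg, hord⟩ := H t ht hR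
  exact ⟨g, fun i => Set.injOn_univ.1 (hg i), fun a b => hord a trivial b trivial⟩

end Pool.Agent.Results.MP_cfa48c_co.DimensionFour
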