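import Pool.Agent.Helper419_RPC.FiveMin

/-!
# Removable pairs in posets with at most five minimal (or at most five maximal) points

Every finite poset with at least three points and at most five minimal points, or at most five
maximal points, has a removable pair. There is no assumption on the dimension. In particular every
finite poset of width at most five with at least three points has a removable pair.
-/

set_option autoImplicit false

namespace Pool.Agent.Results.MP_cfa48c_co.FiveMinimal

open Pool.Agent.Helper419_RPC

/-- Every finite poset `α` with at least three points which has at most five minimal points or at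
most five maximal points has two distinct points `x, y` such that every realizer of `α` minus
`{x, y}` by `t ≥ 1` linear extensions gives a realizer of `α` by `t + 1` linear extensions. -/
theorem result :
    ∀ (α : Type) [Fintype α] [PartialOrder α], 3 ≤ Fintype.card α →
      (({a : α | IsMin a} : Set α).ncard ≤ 5 ∨ ({a : α | IsMax a} : Set α).ncard ≤ 5) →
      ∃ x y : α, x ≠ y ∧
        ∀ t : ℕ, 1 ≤ t →
          (∃ f : Fin t → α → ℕ,
              (∀ i, Set.InjOn (f i) ({x, y}ᶜ : Set α)) ∧
              ∀ a ∈ ({x, y}ᶜ : Set α), ∀ b ∈ ({x, y}ᶜ : Set α),
                (a ≤ b ↔ ∀ i, f i a ≤ f i b)) →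
          ∃ g : Fin (t + 1) → α → ℕ,
            (∀ i, Function.Injective (g i)) ∧
            ∀ a b : α, (a ≤ b ↔ ∀ i, g i a ≤ g i b) := by
  intro α _ _ hcard h4
  have hxy : ∃ x y : α, x ≠ y := by
    have : 1 < Fintype.card α := by omega
    exact Fintype.exists_pair_of_one_lt_card this
  have hno : ¬ NoRem α := by
    intro H
    have h1 := H.six_min hxy
    have h2 := H.six_max hxy
    omega
  unfold NoRem at hno
  push Not at hno
  obtain ⟨x, y, hne, H⟩ := hno
  refine ⟨x, y, hne, ?_⟩
  intro t ht hR
  obtain ⟨g, hg, hord⟩ := H t ht hR
  exact ⟨g, fun i => Set.injOn_univ.1 (hg i), fun a b => hord a trivial b trivial⟩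

end Pool.Agent.Results.MP_cfa48c_co.FiveMinimal
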