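import Pool.Agent.Helper419_RPC.LowTwo

/-!
# Removable pairs when the relation between minimal and middle points is two-dimensional

Let `P` be a finite poset with at least three points. Call a point *middle* if it is neither
minimal nor maximal. If the relation `a < u` between minimal points `a` and middle points `u` is
an intersection of two Ferrers relations (for instance, if the non-maximal points of `P` form a
poset of dimension, or even interval dimension, at most two), then `P` has a removable pair. The
same holds for the relation between middle points and maximal points. There is no assumption on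
the dimension of `P`.
-/

set_option autoImplicit false

namespace Pool.Agent.Results.MP_cfa48c_co.LowerPartTwo

open Pool.Agent.Helper419_RPC

/-- Let `α` be a finite poset with at least three points. Suppose that there are functions
`r 0, r 1, l 0, l 1 : α → ℕ` such that `a < u ↔ r 0 a < l 0 u ∧ r 1 a < l 1 u` for all minimal
points `a` and all points `u` which are neither minimal nor maximal, or that there are such
functions with `u < c ↔ r 0 u < l 0 c ∧ r 1 u < l 1 c` for all maximal points `c` and all points
`u` which are neither minimal nor maximal. Then there are two distinct points `x, y` such that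
every realizer of `α` minus `{x, y}` by `t ≥ 1` linear extensions gives a realizer of `α` by
`t + 1` linear extensions. -/
theorem result :
    ∀ (α : Type) [Fintype α] [PartialOrder α], 3 ≤ Fintype.card α →
      ((∃ r l : Fin 2 → α → ℕ, ∀ a u : α, IsMin a → ¬ IsMin u → ¬ IsMax u →
          (a < u ↔ ∀ i, r i a < l i u)) ∨
        (∃ r l : Fin 2 → α → ℕ, ∀ u c : α, IsMax c → ¬ IsMax u → ¬ IsMin u →
          (u < c ↔ ∀ i, r i u < l i c))) →
      ∃ x y : α, x ≠ y ∧
        ∀ t : ℕ, 1 ≤ t →
          (∃ f : Fin t → α → ℕ,
              (∀ i, Set.InjOn (f i) ({x, y}ᶜ : Set α)) ∧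
              ∀ a ∈ ({x, y}ᶜ : Set α), ∀ b ∈ ({x, y}ᶜ : Set α),
                (a ≤ b ↔ ∀ i, f i a ≤ f i b)) →
          ∃ g : Fin (t + 1) → α → ℕ,
            (∀ i, Function.Injective (g i)) ∧
            ∀ a b : α, (a ≤ b ↔ ∀ i, g i a ≤ g i b) := by
  intro α _ _ hcard h4
  have hxy : ∃ x y : α, x ≠ y := by
    have : 1 < Fintype.card α := by omega
    exact Fintype.exists_pair_of_one_lt_card this
  have hno : ¬ NoRem α := by
    intro H
    rcases h4 with ⟨r, l, hrl⟩ | ⟨r, l, hrl⟩
    · exact H.not_two_low hxy r l hrl
    · exact H.not_two_high hxy r l hrl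
  unfold NoRem at hno
  push Not at hno
  obtain ⟨x, y, hne, H⟩ := hno
  refine ⟨x, y, hne, ?_⟩
  intro t ht hR
  obtain ⟨g, hg, hord⟩ := H t ht hR
  exact ⟨g, fun i => Set.injOn_univ.1 (hg i), fun a b => hord a trivial b trivial⟩

end Pool.Agent.Results.MP_cfa48c_co.LowerPartTwo
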