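import Pool.Agent.Helper419_RPC.Count

/-!
# Removable pairs in posets whose cover graph has average degree less than four

Every finite poset with `n ≥ 3` points and fewer than `2 n` cover relations has a removable pair.
A cover graph is triangle-free, so a planar cover graph on `n ≥ 3` points has at most `2 n - 4`
edges: the theorem contains all posets with planar cover graph.
-/

set_option autoImplicit false

namespace Pool.Agent.Results.MP_cfa48c_co.SparseCovers

open Pool.Agent.Helper419_RPC

/-- Every finite poset `α` with at least three points and fewer than `2 * card α` pairs `(u, v)`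
such that `v` covers `u` has two distinct points `x, y` such that every realizer of `α` minus
`{x, y}` by `t ≥ 1` linear extensions gives a realizer of `α` by `t + 1` linear extensions. -/
theorem result :
    ∀ (α : Type) [Fintype α] [PartialOrder α], 3 ≤ Fintype.card α →
      ({p : α × α | p.1 ⋖ p.2} : Set (α × α)).ncard < 2 * Fintype.card α →
      ∃ x y : α, x ≠ y ∧
        ∀ t : ℕ, 1 ≤ t →
          (∃ f : Fin t → α → ℕ,
              (∀ i, Set.InjOn (f i) ({x, y}ᶜ : Set α)) ∧
              ∀ a ∈ ({x, y}ᶜ : Set α), ∀ b ∈ ({x, y}ᶜ : Set α),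
                (a ≤ b ↔ ∀ i, f i a ≤ f i b)) →
          ∃ g : Fin (t + 1) → α → ℕ,
            (∀ i, Function.Injective (g i)) ∧
            ∀ a b : α, (a ≤ b ↔ ∀ i, g i a ≤ g i b) := by
  intro α _ _ hcard hcov
  have hxy : ∃ x y : α, x ≠ y := by
    have : 1 < Fintype.card α := by omega
    exact Fintype.exists_pair_of_one_lt_card this
  have hno : ¬ NoRem α := by
    intro H
    have h1 := H.covers hxy
    classical
    have h2 : ({p : α × α | p.1 ⋖ p.2} : Set (α × α)).ncard =
        (Finset.univ.filter (fun p : α × α => p.1 ⋖ p.2)).card := by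
      rw [← Set.ncard_coe_finset]
      congr 1
      ext p
      simp
    rw [h2] at hcov
    have h3 : (Finset.univ.filter (fun p : α × α => p.1 ⋖ p.2)).card < 2 * Fintype.card α := hcov
    have h4 : 2 * Fintype.card α ≤
        (Finset.univ.filter (fun p : α × α => p.1 ⋖ p.2)).card := by
      convert h1
    omega
  unfold NoRem at hno
  push Not at hno
  obtain ⟨x, y, hne, H⟩ := hno
  refine ⟨x, y, hne, ?_⟩
  intro t ht hR
  obtain ⟨g, hg, hord⟩ := H t ht hR
  exact ⟨g, fun i => Set.injOn_univ.1 (hg i), fun a b => hord a trivial b trivial⟩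

end Pool.Agent.Results.MP_cfa48c_co.SparseCovers
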